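import Mathlib

/-!
Interpolation of a function on `m` consecutive integers by binomial coefficients, and tail bounds for
the number of true values among independent samples.
-/

namespace Pool.Agent.E8helper69.CV

open Finset

lemma shift_choose (m : ℕ) : ∀ c : ℕ → ℤ, ∃ d : ℕ → ℤ, ∀ x : ℕ,
    ∑ j ∈ range m, d j * ((x + 1).choose j : ℤ) = ∑ j ∈ range m, c j * (x.choose j : ℤ) := by
  induction m with
  | zero => intro c; exact ⟨c, fun x => by simp⟩
  | succ m ih =>
    intro c
    rcases m with _ | m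
    · exact ⟨c, fun x => by simp⟩
    obtain ⟨d, hd⟩ := ih (fun j => if j = m then c m - c (m + 1) else c j)
    refine ⟨fun j => if j = m + 1 then c (m + 1) else d j, fun x => ?_⟩
    rw [sum_range_succ, sum_range_succ (f := fun j => c j * (x.choose j : ℤ))]
    beta_reduce
    rw [if_pos rfl]
    have h1 : ∑ j ∈ range (m + 1), (if j = m + 1 then c (m + 1) else d j) * ((x + 1).choose j : ℤ) =
        ∑ j ∈ range (m + 1), d j * ((x + 1).choose j : ℤ) :=
      sum_congr rfl fun j hj => by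
        rw [mem_range] at hj
        rw [if_neg (by omega)]
    rw [h1, hd x, Nat.choose_succ_succ x m]
    rw [sum_range_succ, sum_range_succ (f := fun j => c j * (x.choose j : ℤ)), if_pos rfl]
    have h2 : ∑ j ∈ range m, (if j = m then c m - c (m + 1) else c j) * (x.choose j : ℤ) =
        ∑ j ∈ range m, c j * (x.choose j : ℤ) :=
      sum_congr rfl fun j hj => by
        rw [mem_range] at hj
        rw [if_neg (by omega)]
    rw [h2]
    push_cast
    ring

/-- Every integer valued function on `m` consecutive integers is an integer combination of the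
binomial coefficients `x.choose j`, `j < m`. -/
theorem newton (a m : ℕ) : ∀ τ : ℕ → ℤ, ∃ c : ℕ → ℤ, ∀ x, a ≤ x → x < a + m →
    ∑ j ∈ range m, c j * (x.choose j : ℤ) = τ x := by
  induction a with
  | zero =>
    intro τ
    induction m with
    | zero => exact ⟨0, fun x h1 h2 => by omega⟩
    | succ m ih =>
      obtain ⟨c, hc⟩ := ih
      refine ⟨fun j => if j = m then τ m - ∑ j ∈ range m, c j * (m.choose j : ℤ) else c j,
        fun x _ hx => ?_⟩
      rw [sum_range_succ]
      beta_reduce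
      rw [if_pos rfl]
      have h1 : ∑ j ∈ range m, (if j = m then τ m - ∑ j ∈ range m, c j * (m.choose j : ℤ) else c j) *
          (x.choose j : ℤ) = ∑ j ∈ range m, c j * (x.choose j : ℤ) :=
        sum_congr rfl fun j hj => by
          rw [mem_range] at hj
          rw [if_neg (by omega)]
      rw [h1]
      rcases Nat.lt_or_ge x m with h | h
      · rw [hc x (Nat.zero_le _) (by omega), Nat.choose_eq_zero_of_lt h]
        simp
      · have : x = m := by omega
        subst this
        rw [Nat.choose_self]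
        push_cast
        ring
  | succ a ih =>
    intro τ
    obtain ⟨c, hc⟩ := ih (fun x => τ (x + 1))
    obtain ⟨d, hd⟩ := shift_choose m c
    refine ⟨d, fun x h1 h2 => ?_⟩
    obtain ⟨y, rfl⟩ : ∃ y, x = y + 1 := ⟨x - 1, by omega⟩
    rw [hd y, hc y (by omega) (by omega)]

section

variable {W : Type} [Fintype W]

/-- the number of the samples for which `q` is true -/
def cnt {l : ℕ} (q : W → Bool) (w : Fin l → W) : ℕ := (univ.filter fun i => q (w i) = true).card

omit [Fintype W] in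
lemma cnt_not {l : ℕ} (q : W → Bool) (w : Fin l → W) : cnt q w + cnt (fun x => !q x) w = l := by
  unfold cnt
  have h := card_filter_add_card_filter_not (s := (univ : Finset (Fin l)))
    (fun i => q (w i) = true)
  rw [card_univ, Fintype.card_fin] at h
  have h2 : (univ.filter fun i => (!q (w i)) = true) = univ.filter fun i => ¬ q (w i) = true :=
    filter_congr fun i _ => by simp
  rw [h2]
  exact h

omit [Fintype W] in
lemma prod_exp {l : ℕ} (q : W → Bool) (t : ℝ) (w : Fin l → W) :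
    ∏ i, Real.exp (if q (w i) = true then t else -t) =
      Real.exp (t * (2 * (cnt q w : ℝ) - l)) := by
  rw [← Real.exp_sum]
  congr 1
  rw [sum_ite, sum_const, sum_const, nsmul_eq_mul, nsmul_eq_mul]
  have h := card_filter_add_card_filter_not (s := (univ : Finset (Fin l)))
    (fun i => q (w i) = true)
  rw [card_univ, Fintype.card_fin] at h
  have h1 : ((univ.filter fun i => ¬ q (w i) = true).card : ℝ) = l - cnt q w := by
    unfold cnt
    have h' : ((univ.filter fun i => q (w i) = true).card : ℝ) +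
        ((univ.filter fun i => ¬ q (w i) = true).card : ℝ) = l := by exact_mod_cast h
    linarith
  rw [h1]
  unfold cnt
  ring

variable (ω : W → ℝ)

lemma mgf {l : ℕ} (hs : ∑ w, ω w = 1) (q : W → Bool) (t : ℝ) :
    ∑ w : Fin l → W, (∏ i, ω (w i)) * Real.exp (t * (2 * (cnt q w : ℝ) - l)) =
      (Real.cosh t + (2 * (∑ w, if q w = true then ω w else 0) - 1) * Real.sinh t) ^ l := by
  have h1 : ∀ w : Fin l → W, (∏ i, ω (w i)) * Real.exp (t * (2 * (cnt q w : ℝ) - l)) =
      ∏ i, ω (w i) * Real.exp (if q (w i) = true then t else -t) := fun w => by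
    rw [← prod_exp, prod_mul_distrib]
  rw [sum_congr rfl fun w _ => h1 w,
    ← Fintype.sum_pow (fun x : W => ω x * Real.exp (if q x = true then t else -t))]
  congr 1
  have h2 : ∀ w : W, ω w * Real.exp (if q w = true then t else -t) =
      (if q w = true then ω w else 0) * (Real.exp t - Real.exp (-t)) + ω w * Real.exp (-t) := by
    intro w
    split_ifs <;> ring
  rw [sum_congr rfl fun w _ => h2 w, sum_add_distrib, ← sum_mul, ← sum_mul, hs, Real.cosh_eq,
    Real.sinh_eq]
  ring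

lemma sinh_le_mul_cosh {x : ℝ} (hx : 0 ≤ x) : Real.sinh x ≤ x * Real.cosh x := by
  rcases hx.eq_or_lt with h | h
  · rw [← h]; simp
  obtain ⟨c, hc, he⟩ := exists_deriv_eq_slope Real.sinh h Real.continuous_sinh.continuousOn
    Real.differentiable_sinh.differentiableOn
  rw [Real.deriv_sinh, Real.sinh_zero, sub_zero, sub_zero, eq_div_iff h.ne'] at he
  rw [← he, mul_comm]
  refine mul_le_mul_of_nonneg_left ?_ hx
  rw [Real.cosh_le_cosh, abs_of_pos hc.1, abs_of_pos h]
  exact hc.2.le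

lemma low_factor {ε p : ℝ} (h0 : 0 < ε) (h1 : ε ≤ 1 / 2) (hp : 1 / 2 + ε ≤ p) :
    Real.cosh (-(2 * ε)) + (2 * p - 1) * Real.sinh (-(2 * ε)) ≤ Real.exp (-ε ^ 2) := by
  rw [Real.cosh_neg, Real.sinh_neg]
  have a1 : Real.cosh (2 * ε) ≤ Real.exp ((2 * ε) ^ 2 / 2) := Real.cosh_le_exp_half_sq _
  have a2 : 2 * ε ≤ Real.sinh (2 * ε) := Real.self_le_sinh_iff.2 (by linarith)
  have a3 : |Real.exp (2 * ε ^ 2) - 1 - 2 * ε ^ 2| ≤ (2 * ε ^ 2) ^ 2 :=
    Real.abs_exp_sub_one_sub_id_le (by
      rw [abs_of_nonneg (by positivity)]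
      nlinarith)
  have a4 := (abs_le.1 a3).2
  rw [show (2 * ε) ^ 2 / 2 = 2 * ε ^ 2 by ring] at a1
  have a5 : 1 - ε ^ 2 ≤ Real.exp (-ε ^ 2) := by
    have := Real.add_one_le_exp (-ε ^ 2)
    linarith
  have a6 : 2 * ε * Real.sinh (2 * ε) ≤ (2 * p - 1) * Real.sinh (2 * ε) :=
    mul_le_mul_of_nonneg_right (by linarith) (by linarith)
  have a7 : 2 * ε * (2 * ε) ≤ 2 * ε * Real.sinh (2 * ε) :=
    mul_le_mul_of_nonneg_left a2 (by linarith)
  have a8 : (2 * ε ^ 2) ^ 2 ≤ ε ^ 2 := by
    have : ε ^ 2 ≤ 1 / 4 := by nlinarith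
    nlinarith [sq_nonneg ε]
  nlinarith

lemma up_factor {β p : ℝ} (h0 : 0 ≤ β) (hp : p ≤ 1 / 2 + β) :
    Real.cosh β + (2 * p - 1) * Real.sinh β ≤ Real.exp (5 / 2 * β ^ 2) := by
  have a1 : Real.cosh β ≤ Real.exp (β ^ 2 / 2) := Real.cosh_le_exp_half_sq _
  have a2 := sinh_le_mul_cosh h0
  have a3 : 0 ≤ Real.sinh β := Real.sinh_nonneg_iff.2 h0
  have a4 : (2 * p - 1) * Real.sinh β ≤ 2 * β * (β * Real.cosh β) :=
    (mul_le_mul_of_nonneg_right (show 2 * p - 1 ≤ 2 * β by linarith) a3).trans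
      (mul_le_mul_of_nonneg_left a2 (by linarith))
  have a5 : 1 + 2 * β ^ 2 ≤ Real.exp (2 * β ^ 2) := by
    have := Real.add_one_le_exp (2 * β ^ 2)
    linarith
  calc _ ≤ Real.cosh β + 2 * β * (β * Real.cosh β) := by linarith
    _ = (1 + 2 * β ^ 2) * Real.cosh β := by ring
    _ ≤ Real.exp (2 * β ^ 2) * Real.exp (β ^ 2 / 2) :=
        mul_le_mul a5 a1 (Real.cosh_pos β).le (Real.exp_pos _).le
    _ = _ := by rw [← Real.exp_add]; congr 1; ring

open Classical in
lemma markov {l : ℕ} (h0 : ∀ w, 0 ≤ ω w) (Y : (Fin l → W) → ℝ) (P : (Fin l → W) → Prop)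
    (hP : ∀ w, P w → 1 ≤ Y w) (hY : ∀ w, 0 ≤ Y w) :
    ∑ w : Fin l → W, (if P w then ∏ i, ω (w i) else 0) ≤ ∑ w : Fin l → W, (∏ i, ω (w i)) * Y w := by
  refine sum_le_sum fun w _ => ?_
  have h1 : 0 ≤ ∏ i, ω (w i) := prod_nonneg fun i _ => h0 _
  split_ifs with h
  · exact le_mul_of_one_le_right h1 (hP w h)
  · exact mul_nonneg h1 (hY w)

open Classical in
/-- The number of true votes is in the right window, up to a small probability. -/
theorem tail {l : ℕ} (h0 : ∀ w, 0 ≤ ω w) (hs : ∑ w, ω w = 1) (q : W → Bool) {ε β : ℝ}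
    (hε : 0 < ε) (hε1 : ε ≤ 1 / 2) (hεβ : ε ≤ β)
    (h1 : 1 / 2 + ε ≤ ∑ w, if q w = true then ω w else 0)
    (h2 : (∑ w, if q w = true then ω w else 0) ≤ 1 / 2 + β) :
    ∑ w : Fin l → W, (if ¬ (0 < 2 * (cnt q w : ℝ) - l ∧ 2 * (cnt q w : ℝ) - l ≤ 4 * β * l)
      then ∏ i, ω (w i) else 0) ≤ 2 * Real.exp (-(ε ^ 2 * l)) := by
  have hβ : 0 < β := hε.trans_le hεβ
  have hp1 : (∑ w, if q w = true then ω w else 0) ≤ 1 := by
    rw [← hs]
    refine sum_le_sum fun w _ => ?_
    split_ifs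
    · exact le_rfl
    · exact h0 w
  -- the lower tail
  have e1 := mgf (l := l) ω hs q (-(2 * ε))
  have e2 := low_factor hε hε1 h1
  have e3 : ∑ w : Fin l → W, (if 2 * (cnt q w : ℝ) - l ≤ 0 then ∏ i, ω (w i) else 0) ≤
      Real.exp (-(ε ^ 2 * l)) := by
    calc _ ≤ ∑ w : Fin l → W, (∏ i, ω (w i)) * Real.exp (-(2 * ε) * (2 * (cnt q w : ℝ) - l)) := by
          refine markov ω h0 _ _ (fun w hw => ?_) fun w => (Real.exp_pos _).le
          exact Real.one_le_exp (by nlinarith)
      _ = _ := e1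
      _ ≤ Real.exp (-ε ^ 2) ^ l := by
          refine pow_le_pow_left₀ ?_ e2 l
          rw [Real.cosh_neg, Real.sinh_neg]
          have a1 := Real.sinh_lt_cosh (2 * ε)
          have a2 : 0 ≤ Real.sinh (2 * ε) := Real.sinh_nonneg_iff.2 (by linarith)
          nlinarith
      _ = _ := by rw [← Real.exp_nat_mul]; congr 1; ring
  have f1 := mgf (l := l) ω hs q β
  have f2 := up_factor hβ.le h2
  have f3 : ∑ w : Fin l → W, (if 4 * β * l < 2 * (cnt q w : ℝ) - l then ∏ i, ω (w i) else 0) ≤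
      Real.exp (-(ε ^ 2 * l)) := by
    calc _ ≤ ∑ w : Fin l → W, (∏ i, ω (w i)) *
          Real.exp (β * (2 * (cnt q w : ℝ) - l) - 4 * β ^ 2 * l) := by
          refine markov ω h0 _ _ (fun w hw => ?_) fun w => (Real.exp_pos _).le
          exact Real.one_le_exp (by nlinarith)
      _ = (∑ w : Fin l → W, (∏ i, ω (w i)) * Real.exp (β * (2 * (cnt q w : ℝ) - l))) *
          Real.exp (-(4 * β ^ 2 * l)) := by
          rw [sum_mul]
          refine sum_congr rfl fun w _ => ?_
          rw [mul_assoc (∏ i, ω (w i)), ← Real.exp_add]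
          congr 2
      _ ≤ Real.exp (5 / 2 * β ^ 2) ^ l * Real.exp (-(4 * β ^ 2 * l)) := by
          rw [f1]
          refine mul_le_mul_of_nonneg_right (pow_le_pow_left₀ ?_ f2 l) (Real.exp_pos _).le
          have a1 := Real.sinh_lt_cosh β
          have a2 : 0 ≤ Real.sinh β := Real.sinh_nonneg_iff.2 hβ.le
          nlinarith
      _ ≤ _ := by
          rw [← Real.exp_nat_mul, ← Real.exp_add]
          refine Real.exp_le_exp.2 ?_
          have h3 : ε ^ 2 * (l : ℝ) ≤ β ^ 2 * l :=
            mul_le_mul_of_nonneg_right (pow_le_pow_left₀ hε.le hεβ 2) (Nat.cast_nonneg l)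
          have h4 : 0 ≤ β ^ 2 * (l : ℝ) := by positivity
          nlinarith
  calc _ ≤ ∑ w : Fin l → W, ((if 2 * (cnt q w : ℝ) - l ≤ 0 then ∏ i, ω (w i) else 0) +
        (if 4 * β * l < 2 * (cnt q w : ℝ) - l then ∏ i, ω (w i) else 0)) := by
        refine sum_le_sum fun w _ => ?_
        have h5 : 0 ≤ ∏ i, ω (w i) := prod_nonneg fun i _ => h0 _
        by_cases ha : 2 * (cnt q w : ℝ) - l ≤ 0
        · rw [if_pos ha]
          split_ifs <;> linarith
        · by_cases hb : 4 * β * l < 2 * (cnt q w : ℝ) - l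
          · rw [if_neg ha, if_pos hb]
            split_ifs <;> linarith
          · rw [if_neg (fun h => h ⟨not_le.1 ha, not_lt.1 hb⟩), if_neg ha, if_neg hb]
            linarith
    _ ≤ _ := by rw [sum_add_distrib]; linarith

/-- An average over the product of the weights is attained. -/
theorem exists_le_avg {l : ℕ} (h0 : ∀ w, 0 ≤ ω w) (hs : ∑ w, ω w = 1) (f : (Fin l → W) → ℝ) (c : ℝ)
    (h : ∑ w : Fin l → W, (∏ i, ω (w i)) * f w ≤ c) : ∃ w, f w ≤ c := by
  by_contra hcon
  push Not at hcon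
  have h1 : ∑ w : Fin l → W, ∏ i, ω (w i) = 1 := by
    rw [← Fintype.sum_pow, hs, one_pow]
  have h2 : ∑ w : Fin l → W, (∏ i, ω (w i)) * (f w - c) ≤ 0 := by
    simp only [mul_sub]
    rw [sum_sub_distrib, ← sum_mul, h1]
    linarith
  have h3 : ∀ w ∈ (univ : Finset (Fin l → W)), 0 ≤ (∏ i, ω (w i)) * (f w - c) := fun w _ =>
    mul_nonneg (prod_nonneg fun i _ => h0 _) (by linarith [hcon w])
  have h4 := (sum_eq_zero_iff_of_nonneg h3).1 (le_antisymm h2 (sum_nonneg h3))
  have h5 : ∑ w : Fin l → W, ∏ i, ω (w i) = 0 := sum_eq_zero fun w _ => by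
    rcases mul_eq_zero.1 (h4 w (mem_univ _)) with h | h
    · exact h
    · exact absurd h (by linarith [hcon w])
  linarith

end

end Pool.Agent.E8helper69.CV
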