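import Mathlib
import Pool.Agent.W856.Corner9
import Pool.Agent.E8helper69.CV.Tail

/-!
A low degree function which agrees with a set up to few points, from a random low degree function which
is right with a probability slightly above `1/2`.
-/

namespace Pool.Agent.E8helper69.CV

open Finset Pool.Agent.W856.Corner

section

variable {n : ℕ} {K : Type} [Field K]

lemma choose_mem {l D : ℕ} (Q : Fin l → V n → Bool) (hQ : ∀ i, LB K D (Q i)) (j : ℕ) :
    (fun y => (((univ.filter fun i => Q i y = true).card.choose j : ℕ) : K)) ∈ LK K n (j * D) := by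
  classical
  have h1 : (fun y => (((univ.filter fun i => Q i y = true).card.choose j : ℕ) : K)) =
      ∑ J ∈ powersetCard j (univ : Finset (Fin l)), ∏ i ∈ J, fun y => bi K (Q i y) := by
    funext y
    rw [Finset.sum_apply]
    have h2 : ∀ J ∈ powersetCard j (univ : Finset (Fin l)), (∏ i ∈ J, fun y => bi K (Q i y)) y =
        if J ⊆ (univ.filter fun i => Q i y = true) then 1 else 0 := by
      intro J _
      rw [Finset.prod_apply]
      unfold bi
      rw [Finset.prod_boole]
      congr 1
      rw [eq_iff_iff]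
      constructor
      · intro h i hi
        rw [mem_filter]
        exact ⟨mem_univ _, h i hi⟩
      · intro h i hi
        exact (mem_filter.1 (h hi)).2
    rw [sum_congr rfl h2, ← sum_filter, sum_const, nsmul_one]
    congr 1
    have h3 : (powersetCard j (univ : Finset (Fin l))).filter
        (fun J => J ⊆ (univ.filter fun i => Q i y = true)) =
        powersetCard j (univ.filter fun i => Q i y = true) := by
      ext J
      rw [mem_filter, mem_powersetCard, mem_powersetCard]
      constructor
      · rintro ⟨⟨_, h4⟩, h5⟩; exact ⟨h5, h4⟩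
      · rintro ⟨h4, h5⟩; exact ⟨⟨subset_univ _, h5⟩, h4⟩
    rw [h3, card_powersetCard]
  rw [h1]
  refine Submodule.sum_mem _ fun J hJ => ?_
  have h2 := LK_prod (K := K) (n := n) J (fun _ => D) (fun i y => bi K (Q i y)) (fun i _ => hQ i)
  rw [sum_const, smul_eq_mul, (mem_powersetCard.1 hJ).2] at h2
  exact h2

open Classical in
theorem sampled {D : ℕ} {W : Type} [Fintype W] (ω : W → ℝ) (h0 : ∀ w, 0 ≤ ω w) (hs : ∑ w, ω w = 1)
    (Q : W → V n → Bool) (hQ : ∀ w, LB K D (Q w)) (S : Set (V n)) {ε β : ℝ}
    (hε : 0 < ε) (hε1 : ε ≤ 1 / 2) (hεβ : ε ≤ β)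
    (hin : ∀ y ∈ S, 1 / 2 + ε ≤ (∑ w, if Q w y = true then ω w else 0) ∧
      (∑ w, if Q w y = true then ω w else 0) ≤ 1 / 2 + β)
    (hout : ∀ y, y ∉ S → 1 / 2 - β ≤ (∑ w, if Q w y = true then ω w else 0) ∧
      (∑ w, if Q w y = true then ω w else 0) ≤ 1 / 2 - ε) (l : ℕ) :
    ∃ g ∈ LK K n ((⌊4 * β * l⌋₊ + 2) * D),
      ((univ.filter fun y => g y ≠ if y ∈ S then 1 else 0).card : ℝ) ≤
        2 ^ n * (2 * Real.exp (-(ε ^ 2 * l))) := by
  obtain ⟨c, hc⟩ := newton ⌈(l : ℝ) / 2 - 2 * β * l⌉₊ (⌊4 * β * l⌋₊ + 2)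
    (fun x => if l < 2 * x then 1 else 0)
  have hβ : 0 < β := hε.trans_le hεβ
  -- the window
  have hwin : ∀ X : ℕ, |2 * (X : ℝ) - l| ≤ 4 * β * l →
      ∑ j ∈ range (⌊4 * β * l⌋₊ + 2), ((c j : ℤ) : K) * ((X.choose j : ℕ) : K) =
        if l < 2 * X then 1 else 0 := by
    intro X hX
    obtain ⟨hX1, hX2⟩ := abs_le.1 hX
    have e1 : ⌈(l : ℝ) / 2 - 2 * β * l⌉₊ ≤ X := Nat.ceil_le.2 (by linarith)
    have e2 : X < ⌈(l : ℝ) / 2 - 2 * β * l⌉₊ + (⌊4 * β * l⌋₊ + 2) := by
      have e3 := Nat.le_ceil ((l : ℝ) / 2 - 2 * β * l)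
      have e4 := Nat.lt_floor_add_one (4 * β * (l : ℝ))
      have e5 : (X : ℝ) < ((⌈(l : ℝ) / 2 - 2 * β * l⌉₊ + (⌊4 * β * l⌋₊ + 2) : ℕ) : ℝ) := by
        push_cast
        linarith
      exact_mod_cast e5
    have e6 := congrArg (Int.cast : ℤ → K) (hc X e1 e2)
    push_cast at e6
    rw [← e6]
  let G : (Fin l → W) → V n → K := fun w y =>
    ∑ j ∈ range (⌊4 * β * l⌋₊ + 2), ((c j : ℤ) : K) * (((cnt (fun x => Q x y) w).choose j : ℕ) : K)
  have hG : ∀ w, G w ∈ LK K n ((⌊4 * β * l⌋₊ + 2) * D) := by
    intro w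
    have h1 : G w = ∑ j ∈ range (⌊4 * β * l⌋₊ + 2), ((c j : ℤ) : K) •
        (fun y => (((univ.filter fun i => Q (w i) y = true).card.choose j : ℕ) : K)) := by
      funext y
      rw [Finset.sum_apply]
      rfl
    rw [h1]
    refine Submodule.sum_mem _ fun j hj => Submodule.smul_mem _ _ ?_
    exact LK_mono (Nat.mul_le_mul_right _ (mem_range.1 hj).le)
      (choose_mem (fun i => Q (w i)) (fun i => hQ (w i)) j)
  -- the failures at one point
  have hfail : ∀ y, ∑ w : Fin l → W, (if G w y ≠ (if y ∈ S then 1 else 0) then ∏ i, ω (w i) else 0) ≤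
      2 * Real.exp (-(ε ^ 2 * l)) := by
    intro y
    by_cases hy : y ∈ S
    · refine le_trans (sum_le_sum fun w _ => ?_) (tail ω h0 hs (fun x => Q x y) hε hε1 hεβ
        (hin y hy).1 (hin y hy).2)
      have h5 : 0 ≤ ∏ i, ω (w i) := prod_nonneg fun i _ => h0 _
      by_cases hg : 0 < 2 * (cnt (fun x => Q x y) w : ℝ) - l ∧
          2 * (cnt (fun x => Q x y) w : ℝ) - l ≤ 4 * β * l
      · have h6 : G w y = 1 := by
          have h7 := hwin (cnt (fun x => Q x y) w) (abs_le.2 ⟨by
            have : 0 ≤ 4 * β * (l : ℝ) := by positivity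
            linarith [hg.1], hg.2⟩)
          have h8 : l < 2 * cnt (fun x => Q x y) w := by
            have h9 : (l : ℝ) < ((2 * cnt (fun x => Q x y) w : ℕ) : ℝ) := by
              push_cast
              linarith [hg.1]
            exact_mod_cast h9
          rw [if_pos h8] at h7
          exact h7
        rw [if_neg (by rw [if_pos hy, h6]; simp), if_neg (by simpa using hg)]
      · rw [if_pos (c := ¬ _) hg]
        split_ifs <;> linarith
    · have hsum : (∑ w, if (!Q w y) = true then ω w else 0) =
          1 - ∑ w, if Q w y = true then ω w else 0 := by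
        rw [eq_sub_iff_add_eq, ← sum_add_distrib, ← hs]
        refine sum_congr rfl fun w _ => ?_
        cases Q w y <;> simp
      have ht := tail (l := l) ω h0 hs (fun x => !Q x y) hε hε1 hεβ (by
        rw [hsum]; linarith [(hout y hy).2]) (by rw [hsum]; linarith [(hout y hy).1])
      refine le_trans (sum_le_sum fun w _ => ?_) ht
      have h5 : 0 ≤ ∏ i, ω (w i) := prod_nonneg fun i _ => h0 _
      have hcn : (cnt (fun x => !Q x y) w : ℝ) = l - cnt (fun x => Q x y) w := by
        have h6 : (cnt (fun x => Q x y) w : ℝ) + (cnt (fun x => !Q x y) w : ℝ) = l := by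
          exact_mod_cast cnt_not (fun x => Q x y) w
        linarith
      by_cases hg : 0 < 2 * (cnt (fun x => !Q x y) w : ℝ) - l ∧
          2 * (cnt (fun x => !Q x y) w : ℝ) - l ≤ 4 * β * l
      · have hg' := hg
        rw [hcn] at hg'
        have h6 : G w y = 0 := by
          have h7 := hwin (cnt (fun x => Q x y) w) (abs_le.2 ⟨by linarith [hg'.2], by
            have : 0 ≤ 4 * β * (l : ℝ) := by positivity
            linarith [hg'.1]⟩)
          have h8 : ¬ l < 2 * cnt (fun x => Q x y) w := by
            intro h9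
            have h10 : (l : ℝ) < ((2 * cnt (fun x => Q x y) w : ℕ) : ℝ) := by exact_mod_cast h9
            push_cast at h10
            linarith [hg'.1]
          rw [if_neg h8] at h7
          exact h7
        rw [if_neg (by rw [if_neg hy, h6]; simp), if_neg (by simpa using hg)]
      · rw [if_pos (c := ¬ _) hg]
        split_ifs <;> linarith
  obtain ⟨w, hw⟩ := exists_le_avg ω h0 hs
    (fun w => ((univ.filter fun y => G w y ≠ if y ∈ S then 1 else 0).card : ℝ))
    (2 ^ n * (2 * Real.exp (-(ε ^ 2 * l)))) (by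
      have e1 : ∀ w : Fin l → W, (∏ i, ω (w i)) *
          ((univ.filter fun y => G w y ≠ if y ∈ S then 1 else 0).card : ℝ) =
          ∑ y, (if G w y ≠ (if y ∈ S then 1 else 0) then ∏ i, ω (w i) else 0) := by
        intro w
        rw [← sum_filter, sum_const, nsmul_eq_mul]
        ring
      rw [sum_congr rfl fun w _ => e1 w, sum_comm]
      calc _ ≤ ∑ _y : V n, 2 * Real.exp (-(ε ^ 2 * l)) := sum_le_sum fun y _ => hfail y
        _ = _ := by
          rw [sum_const, card_univ, nsmul_eq_mul]
          congr 1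
          simp)
  exact ⟨G w, hG w, hw⟩

end

/-- the weighted sum of the votes of the sets `F i`: the set `F i` votes `c i` for its elements and
`- c i` for the other points -/
noncomputable def vote {n N : ℕ} (F : Fin N → Set (V n)) (c : Fin N → ℝ) (y : V n) : ℝ :=
  open Classical in ∑ i, c i * (if y ∈ F i then 1 else -1)

/-- `S` is decided by a weighted vote of sets computed by circuits: the total weight of the votes is at
most `M`, the sum of the votes is in `[1, B]` for the points of `S` and in `[-B, -1]` for the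
other points. -/
def Voted (p k s d : ℕ) (M B : ℝ) {n : ℕ} (S : Set (V n)) : Prop :=
  ∃ (N : ℕ) (F : Fin N → Set (V n)) (c : Fin N → ℝ), (∀ i, Computed p k s d (F i)) ∧
    ∑ i, |c i| ≤ M ∧ (∀ y ∈ S, 1 ≤ vote F c y ∧ vote F c y ≤ B) ∧
    ∀ y ∉ S, -B ≤ vote F c y ∧ vote F c y ≤ -1

section

variable {p k s d n : ℕ} [Fact p.Prime]

open Classical in
/-- A random low degree function for one circuit. -/
lemma one_circuit {F : Set (V n)} (h : Computed p k s d F) (t : ℕ) (ht : 1 ≤ t) :
    ∃ (W : Type) (_ : Fintype W) (_ : Nonempty W) (P : W → V n → Bool),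
      (∀ w, LB (ZMod p) (k * ((p - 1) * t) ^ d) (P w)) ∧
      ∀ y, ((univ.filter fun w => P w y ≠ decide (y ∈ F)).card : ℝ) * 2 ^ t ≤ s * Fintype.card W := by
  obtain ⟨C, hs, hd, i, hi⟩ := h
  have hp := (Fact.out : p.Prime).two_le
  obtain ⟨P, hP, hbad⟩ := approx C t ht
  have hQ1 : 1 ≤ (p - 1) * t := Nat.one_le_iff_ne_zero.2 (by
    have : p - 1 ≠ 0 := by omega
    exact Nat.mul_ne_zero this (by omega))
  refine ⟨Om p C.N t, inferInstance, inferInstance, fun w => P w i, fun w =>
    LB_mono (Nat.mul_le_mul_left _ (Nat.pow_le_pow_right hQ1 (hd i))) (hP w i), fun y => ?_⟩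
  have h1 : (univ.filter fun w => P w i y ≠ decide (y ∈ F)).card ≤
      Nat.card {w // ∃ i, P w i y ≠ C.val i y} := by
    rw [Nat.card_eq_fintype_card, Fintype.card_subtype]
    refine Finset.card_le_card fun w hw => ?_
    rw [Finset.mem_filter] at hw ⊢
    refine ⟨Finset.mem_univ _, i, ?_⟩
    have h2 : decide (y ∈ F) = C.val i y := by
      have := hi y
      cases hv : C.val i y
      · rw [hv] at this
        exact decide_eq_false (fun h => by simpa using this.1 h)
      · rw [hv] at this
        exact decide_eq_true (this.2 rfl)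
    rw [← h2]
    exact hw.2
  have h2 : (univ.filter fun w => P w i y ≠ decide (y ∈ F)).card * 2 ^ t ≤
      s * Fintype.card (Om p C.N t) :=
    (Nat.mul_le_mul_right _ h1).trans ((hbad y).trans (Nat.mul_le_mul_right _ hs))
  exact_mod_cast h2

open Classical in
/-- A low degree function for a set decided by votes. -/
theorem voted_sampled {M B : ℝ} {S : Set (V n)} (h : Voted p k s d M B S) (hB : 1 ≤ B) (t R : ℕ)
    (hR : M * B ≤ R) (ht : 4 * s * R ≤ 2 ^ t) (ht1 : 1 ≤ t) :
    ∃ C : ℝ, 1 ≤ C ∧ C * B ≤ R ∧ ∀ l : ℕ,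
      ∃ g ∈ LK (ZMod p) n ((⌊4 * (B / C) * l⌋₊ + 2) * (k * ((p - 1) * t) ^ d)),
      ((univ.filter fun y => g y ≠ if y ∈ S then 1 else 0).card : ℝ) ≤
        2 ^ n * (2 * Real.exp (-((1 / (4 * C)) ^ 2 * l))) := by
  obtain ⟨N, F, c, hF, hcM, hin, hout⟩ := h
  choose W hW hWne P hP hPb using fun i => one_circuit (hF i) t ht1
  obtain ⟨C, hC⟩ : ∃ C : ℝ, C = ∑ i, |c i| := ⟨_, rfl⟩
  have hvote : ∀ y, |vote F c y| ≤ C := by
    intro y
    unfold vote
    rw [hC]
    refine (abs_sum_le_sum_abs _ _).trans (sum_le_sum fun i _ => ?_)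
    rw [abs_mul]
    split_ifs <;> simp
  have hone : ∀ y, 1 ≤ |vote F c y| := by
    intro y
    by_cases hy : y ∈ S
    · exact (hin y hy).1.trans (le_abs_self _)
    · have := (hout y hy).2
      rw [abs_of_neg (by linarith)]
      linarith
  have hC1 : 1 ≤ C := (hone 0).trans (hvote 0)
  have hC0 : 0 < C := by linarith
  have hCB : C * B ≤ R := by
    refine le_trans ?_ hR
    exact mul_le_mul_of_nonneg_right (by rw [hC]; exact hcM) (by linarith)
  refine ⟨C, hC1, hCB, fun l => ?_⟩
  -- the sample space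
  let ω : (Σ i : Fin N, W i) → ℝ := fun x => |c x.1| / C / Fintype.card (W x.1)
  let Q : (Σ i : Fin N, W i) → V n → Bool := fun x y =>
    if c x.1 < 0 then !P x.1 x.2 y else P x.1 x.2 y
  have hcard : ∀ i, (0 : ℝ) < Fintype.card (W i) := fun i => by
    have := Fintype.card_pos (α := W i)
    exact_mod_cast this
  have h0 : ∀ x, 0 ≤ ω x := fun x => by
    have := (hcard x.1).le
    positivity
  have hsum : ∀ f : (Σ i : Fin N, W i) → ℝ, ∑ x, f x = ∑ i, ∑ w, f ⟨i, w⟩ := fun f =>
    Fintype.sum_sigma f
  have hs : ∑ x, ω x = 1 := by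
    rw [hsum]
    have h1 : ∀ i, ∑ w : W i, ω ⟨i, w⟩ = |c i| / C := fun i => by
      show ∑ _w : W i, |c i| / C / Fintype.card (W i) = _
      rw [sum_const, card_univ, nsmul_eq_mul]
      have := (hcard i).ne'
      field_simp
    rw [sum_congr rfl fun i _ => h1 i, ← sum_div, ← hC, div_self hC0.ne']
  have hQ : ∀ x, LB (ZMod p) (k * ((p - 1) * t) ^ d) (Q x) := by
    intro x
    by_cases hx : c x.1 < 0
    · have : Q x = fun y => !P x.1 x.2 y := by funext y; simp only [Q, if_pos hx]
      rw [this]
      exact LB_not (hP x.1 x.2)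
    · have : Q x = fun y => P x.1 x.2 y := by funext y; simp only [Q, if_neg hx]
      rw [this]
      exact hP x.1 x.2
  -- the probability of a true vote
  have hprob : ∀ y, |(∑ x, if Q x y = true then ω x else 0) - (1 / 2 + vote F c y / (2 * C))| ≤
      1 / (4 * C) := by
    intro y
    have e1 : ∑ i, |c i| / C * (1 / 2 + (if c i < 0 then -1 else 1) *
        (if y ∈ F i then 1 else -1) / 2) = 1 / 2 + vote F c y / (2 * C) := by
      have e2 : ∀ i, |c i| / C * (1 / 2 + (if c i < 0 then -1 else 1) *
          (if y ∈ F i then (1 : ℝ) else -1) / 2) = |c i| / (2 * C) +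
          c i * (if y ∈ F i then 1 else -1) / (2 * C) := by
        intro i
        have e3 : |c i| * (if c i < 0 then -1 else 1) = c i := by
          split_ifs with h1
          · rw [abs_of_neg h1]; ring
          · rw [abs_of_nonneg (not_lt.1 h1)]; ring
        calc _ = |c i| / (2 * C) + (|c i| * (if c i < 0 then -1 else 1)) *
              (if y ∈ F i then 1 else -1) / (2 * C) := by
              field_simp
          _ = _ := by rw [e3]
      rw [sum_congr rfl fun i _ => e2 i, sum_add_distrib, ← sum_div, ← sum_div, ← hC]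
      unfold vote
      have := hC0.ne'
      congr 1
      field_simp
    rw [← e1, hsum, ← sum_sub_distrib]
    refine (abs_sum_le_sum_abs _ _).trans ?_
    have e4 : ∀ i, |(∑ w : W i, if Q ⟨i, w⟩ y = true then ω ⟨i, w⟩ else 0) -
        |c i| / C * (1 / 2 + (if c i < 0 then -1 else 1) * (if y ∈ F i then (1 : ℝ) else -1) / 2)| ≤
        |c i| / C * (1 / (4 * C)) := by
      intro i
      -- the exact vote
      obtain ⟨b, hb⟩ : ∃ b : Bool, b = if c i < 0 then !decide (y ∈ F i) else decide (y ∈ F i) :=
        ⟨_, rfl⟩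
      have e5 : (1 / 2 + (if c i < 0 then -1 else 1) * (if y ∈ F i then (1 : ℝ) else -1) / 2) =
          if b = true then 1 else 0 := by
        rw [hb]
        by_cases h1 : c i < 0 <;> by_cases h2 : y ∈ F i <;> simp [h1, h2] <;> norm_num
      have e6 : |c i| / C * (1 / 2 + (if c i < 0 then -1 else 1) *
          (if y ∈ F i then (1 : ℝ) else -1) / 2) = ∑ w : W i,
          (if b = true then |c i| / C / Fintype.card (W i) else 0) := by
        rw [e5, sum_const, card_univ, nsmul_eq_mul]
        have := (hcard i).ne'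
        cases b
        · simp
        · simp only [if_true]
          field_simp
      rw [e6, ← sum_sub_distrib]
      refine (abs_sum_le_sum_abs _ _).trans ?_
      have e7 : ∀ w : W i, |(if Q ⟨i, w⟩ y = true then ω ⟨i, w⟩ else 0) -
          (if b = true then |c i| / C / Fintype.card (W i) else 0)| ≤
          if P i w y ≠ decide (y ∈ F i) then |c i| / C / Fintype.card (W i) else 0 := by
        intro w
        have hω : 0 ≤ |c i| / C / Fintype.card (W i) := h0 ⟨i, w⟩
        have hω' : ω ⟨i, w⟩ = |c i| / C / Fintype.card (W i) := rfl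
        rw [hω']
        by_cases h3 : P i w y = decide (y ∈ F i)
        · have h4 : Q ⟨i, w⟩ y = b := by
            simp only [Q, h3]
            rw [hb]
          rw [h4, sub_self, abs_zero]
          split_ifs
          · exact hω
          · exact le_rfl
        · rw [if_pos (c := P i w y ≠ decide (y ∈ F i)) h3]
          cases Q ⟨i, w⟩ y <;> cases b <;> simp [abs_of_nonneg hω, hω]
      refine (sum_le_sum fun w _ => e7 w).trans ?_
      rw [← sum_filter, sum_const, nsmul_eq_mul]
      have h5 := hPb i y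
      have h6 : ((univ.filter fun w => P i w y ≠ decide (y ∈ F i)).card : ℝ) ≤
          1 / (4 * C) * Fintype.card (W i) := by
        rcases Nat.eq_zero_or_pos s with h7 | h7
        · rw [h7, Nat.cast_zero, zero_mul] at h5
          have h8 : (0 : ℝ) < 2 ^ t := by positivity
          have h9 : ((univ.filter fun w => P i w y ≠ decide (y ∈ F i)).card : ℝ) ≤ 0 := by
            by_contra hcon
            push Not at hcon
            have := mul_pos hcon h8
            linarith
          have := (hcard i).le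
          have : 0 ≤ 1 / (4 * C) * (Fintype.card (W i) : ℝ) := by positivity
          linarith
        · have h8 : (4 : ℝ) * s * R ≤ 2 ^ t := by exact_mod_cast ht
          have h9 : (0 : ℝ) < s := by exact_mod_cast h7
          have h10 : C ≤ R := by
            have : C * 1 ≤ C * B := mul_le_mul_of_nonneg_left hB hC0.le
            linarith
          have h11 : (4 : ℝ) * s * C ≤ 2 ^ t :=
            (mul_le_mul_of_nonneg_left h10 (by positivity)).trans h8
          have h12 : (0 : ℝ) ≤ ((univ.filter fun w => P i w y ≠ decide (y ∈ F i)).card : ℝ) :=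
            Nat.cast_nonneg _
          have h13 : ((univ.filter fun w => P i w y ≠ decide (y ∈ F i)).card : ℝ) * (4 * s * C) ≤
              s * Fintype.card (W i) := (mul_le_mul_of_nonneg_left h11 h12).trans h5
          rw [one_div, inv_mul_eq_div, le_div_iff₀ (by positivity)]
          have h14 : s * (((univ.filter fun w => P i w y ≠ decide (y ∈ F i)).card : ℝ) * (4 * C)) ≤
              s * Fintype.card (W i) := by
            calc _ = ((univ.filter fun w => P i w y ≠ decide (y ∈ F i)).card : ℝ) * (4 * s * C) := by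
                  ring
              _ ≤ _ := h13
          exact le_of_mul_le_mul_left h14 h9
      have h15 : 0 ≤ |c i| / C / Fintype.card (W i) := by
        have := (hcard i).le
        positivity
      calc _ ≤ 1 / (4 * C) * Fintype.card (W i) * (|c i| / C / Fintype.card (W i)) :=
            mul_le_mul_of_nonneg_right h6 h15
        _ = _ := by
            have := (hcard i).ne'
            field_simp
    refine (sum_le_sum fun i _ => e4 i).trans ?_
    rw [← sum_mul, ← sum_div, ← hC, div_self hC0.ne', one_mul]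
  have hbnd : 1 / (4 * C) ≤ B / C := by
    rw [div_le_div_iff₀ (by positivity) hC0]
    nlinarith
  have hsmall : 1 / (4 * C) + B / (2 * C) ≤ B / C := by
    have : 1 / (4 * C) + B / (2 * C) = (1 + 2 * B) / (4 * C) := by field_simp; ring
    rw [this, div_le_div_iff₀ (by positivity) hC0]
    nlinarith
  have hlow : 1 / (4 * C) = 1 / (2 * C) - 1 / (4 * C) := by field_simp; ring
  suffices h : 1 / (4 * C) ≤ 1 / 2 ∧
      (∀ y ∈ S, 1 / 2 + 1 / (4 * C) ≤ (∑ x, if Q x y = true then ω x else 0) ∧
        (∑ x, if Q x y = true then ω x else 0) ≤ 1 / 2 + B / C) ∧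
      (∀ y, y ∉ S → 1 / 2 - B / C ≤ (∑ x, if Q x y = true then ω x else 0) ∧
        (∑ x, if Q x y = true then ω x else 0) ≤ 1 / 2 - 1 / (4 * C)) by
    obtain ⟨g, hg, hc⟩ := sampled (K := ZMod p) ω h0 hs Q hQ S (show 0 < 1 / (4 * C) by positivity)
      h.1 hbnd h.2.1 h.2.2 l
    refine ⟨g, hg, le_trans (le_of_eq ?_) hc⟩
    congr!
  refine ⟨?_, fun y hy => ?_, fun y hy => ?_⟩
  · rw [div_le_div_iff₀ (by positivity) (by norm_num)]
    linarith
  · obtain ⟨h1, h2⟩ := abs_le.1 (hprob y)
    obtain ⟨h3, h4⟩ := hin y hy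
    have h5 : 1 / (2 * C) ≤ vote F c y / (2 * C) := by gcongr
    have h6 : vote F c y / (2 * C) ≤ B / (2 * C) := by gcongr
    constructor
    · linarith
    · linarith
  · obtain ⟨h1, h2⟩ := abs_le.1 (hprob y)
    obtain ⟨h3, h4⟩ := hout y hy
    have h5 : vote F c y / (2 * C) ≤ -(1 / (2 * C)) := by
      rw [← neg_div]; gcongr
    have h6 : -(B / (2 * C)) ≤ vote F c y / (2 * C) := by
      rw [← neg_div]; gcongr
    constructor
    · linarith
    · linarith

end

end Pool.Agent.E8helper69.CV
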