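import Mathlib
import Pool.Agent.E8helper69.CV.Vote
import Pool.Agent.W856.Corner10

/-!
Corner-free sets whose lines are decided by weighted votes.
-/

namespace Pool.Agent.E8helper69.CV

open Finset Pool.Agent.W856.Corner

section

variable {p k s d n : ℕ} [Fact p.Prime]

open Classical in
/-- The set `S` agrees with functions of degree `2 m M` up to `2^n / 4^m` points, for all `m`. -/
def Appr (p M : ℕ) [Fact p.Prime] {n : ℕ} (S : Set (V n)) : Prop :=
  ∀ m : ℕ, ∃ g ∈ LK (ZMod p) n (2 * m * M),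
    (univ.filter fun y => g y ≠ if y ∈ S then 1 else 0).card * 4 ^ m ≤ 2 ^ n

/-- the degree of the functions which approximate a set decided by a vote -/
def voteDegree (p k s d R : ℕ) : ℕ := 75 * R * (k * ((p - 1) * (Nat.clog 2 s + Nat.clog 2 R + 4)) ^ d)

lemma voted_appr {M B : ℝ} {S : Set (V n)} (h : Voted p k s d M B S) (hB : 1 ≤ B) (R : ℕ)
    (hR : M * B ≤ R) : Appr p (voteDegree p k s d R) S := by
  classical
  set t := Nat.clog 2 s + Nat.clog 2 R + 4 with ht
  have ht4 : 4 * s * R ≤ 2 ^ t := by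
    have h1 : s ≤ 2 ^ Nat.clog 2 s := Nat.le_pow_clog (by norm_num) s
    have h2 : R ≤ 2 ^ Nat.clog 2 R := Nat.le_pow_clog (by norm_num) R
    calc 4 * s * R ≤ 4 * 2 ^ Nat.clog 2 s * 2 ^ Nat.clog 2 R := by gcongr
      _ ≤ 16 * 2 ^ Nat.clog 2 s * 2 ^ Nat.clog 2 R := by gcongr; norm_num
      _ = 2 ^ t := by rw [ht, pow_add, pow_add]; ring
  obtain ⟨C, hC1, hCB, hl⟩ := voted_sampled h hB t R hR ht4 (by omega)
  intro m
  rcases Nat.eq_zero_or_pos m with h0 | h0
  · subst h0
    refine ⟨0, Submodule.zero_mem _, ?_⟩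
    rw [pow_zero, mul_one]
    refine (card_le_univ _).trans (le_of_eq ?_)
    simp
  have hC0 : 0 < C := by linarith
  have hm : (1 : ℝ) ≤ m := by exact_mod_cast h0
  have hRr : (1 : ℝ) ≤ R := by
    have : 1 * 1 ≤ C * B := mul_le_mul hC1 hB (by norm_num) hC0.le
    linarith
  obtain ⟨l, hldef⟩ : ∃ l : ℕ, l = ⌈(2 * (m : ℝ) + 1) * (12 * C ^ 2)⌉₊ := ⟨_, rfl⟩
  have hl1 : (2 * (m : ℝ) + 1) * (12 * C ^ 2) ≤ l := by rw [hldef]; exact Nat.le_ceil _
  have hl2 : (l : ℝ) ≤ (2 * (m : ℝ) + 1) * (12 * C ^ 2) + 1 := by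
    rw [hldef]; exact (Nat.ceil_lt_add_one (by positivity)).le
  obtain ⟨g, hg, hc⟩ := hl l
  refine ⟨g, LK_mono ?_ hg, ?_⟩
  · -- the degree
    have e1 : 4 * (B / C) * (l : ℝ) ≤ 148 * R * m := by
      have hBC : 0 ≤ B / C := by positivity
      calc 4 * (B / C) * (l : ℝ) ≤ 4 * (B / C) * ((2 * (m : ℝ) + 1) * (12 * C ^ 2) + 1) := by
            gcongr
        _ = 48 * (C * B) * (2 * m + 1) + 4 * (B / C) := by field_simp; ring
        _ ≤ 48 * R * (3 * m) + 4 * (R * m) := by
            have e2 : B / C ≤ R := by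
              rw [div_le_iff₀ hC0]
              have e3 : B * 1 ≤ B * C := mul_le_mul_of_nonneg_left hC1 (by linarith)
              have e4 : (R : ℝ) * 1 ≤ R * C := mul_le_mul_of_nonneg_left hC1 (by linarith)
              nlinarith
            have e5 : (R : ℝ) * 1 ≤ R * m := mul_le_mul_of_nonneg_left hm (by linarith)
            have e6 : 48 * (C * B) * (2 * (m : ℝ) + 1) ≤ 48 * R * (3 * m) := by
              refine mul_le_mul (by linarith) (by linarith) (by positivity) (by positivity)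
            linarith
        _ = _ := by ring
    have e7 : ⌊4 * (B / C) * (l : ℝ)⌋₊ ≤ 148 * R * m := by
      have := Nat.floor_le_floor e1
      have e8 : ⌊(148 : ℝ) * R * m⌋₊ = 148 * R * m := by
        have : (148 : ℝ) * R * m = ((148 * R * m : ℕ) : ℝ) := by push_cast; ring
        rw [this, Nat.floor_natCast]
      omega
    have e9 : 1 ≤ R * m := by
      have : 1 ≤ R := by exact_mod_cast hRr
      exact Nat.mul_pos this h0
    unfold voteDegree
    calc _ ≤ (150 * (R * m)) * (k * ((p - 1) * t) ^ d) := by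
          refine Nat.mul_le_mul_right _ ?_
          have : 148 * R * m = 148 * (R * m) := by ring
          omega
      _ = _ := by rw [ht]; ring
  · have e1 : 2 * Real.exp (-((1 / (4 * C)) ^ 2 * l)) ≤ (4 ^ m : ℝ)⁻¹ := by
      have e2 : (2 * (m : ℝ) + 1) * Real.log 2 ≤ (1 / (4 * C)) ^ 2 * l := by
        have e3 : (1 / (4 * C)) ^ 2 * ((2 * (m : ℝ) + 1) * (12 * C ^ 2)) ≤ (1 / (4 * C)) ^ 2 * l := by
          gcongr
        have e4 : (1 / (4 * C)) ^ 2 * ((2 * (m : ℝ) + 1) * (12 * C ^ 2)) = (2 * m + 1) * (3 / 4) := by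
          field_simp
          ring
        have e5 := Real.log_two_lt_d9
        have e6 : (2 * (m : ℝ) + 1) * Real.log 2 ≤ (2 * m + 1) * (3 / 4) := by
          refine mul_le_mul_of_nonneg_left (by linarith) (by positivity)
        linarith
      have e7 : Real.exp (-((1 / (4 * C)) ^ 2 * l)) ≤ Real.exp (-((2 * (m : ℝ) + 1) * Real.log 2)) :=
        Real.exp_le_exp.2 (by linarith)
      have e8 : Real.exp (-((2 * (m : ℝ) + 1) * Real.log 2)) = (2 ^ (2 * m + 1) : ℝ)⁻¹ := by
        rw [Real.exp_neg, show (2 * (m : ℝ) + 1) * Real.log 2 = ((2 * m + 1 : ℕ) : ℝ) * Real.log 2 by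
          push_cast; ring, Real.exp_nat_mul, Real.exp_log (by norm_num)]
      rw [e8] at e7
      calc _ ≤ 2 * (2 ^ (2 * m + 1) : ℝ)⁻¹ := by linarith
        _ = _ := by
          rw [pow_succ, pow_mul]
          norm_num
          ring
    have e9 : ((univ.filter fun y => g y ≠ if y ∈ S then 1 else 0).card : ℝ) * 4 ^ m ≤ 2 ^ n := by
      calc _ ≤ 2 ^ n * (4 ^ m : ℝ)⁻¹ * 4 ^ m := by
            refine mul_le_mul_of_nonneg_right ?_ (by positivity)
            refine le_trans ?_ (mul_le_mul_of_nonneg_left e1 (by positivity))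
            refine le_trans (le_of_eq ?_) hc
            congr!
        _ = _ := by field_simp
    have e10 : (((univ.filter fun y => g y ≠ if y ∈ S then 1 else 0).card * 4 ^ m : ℕ) : ℝ) ≤
        ((2 ^ n : ℕ) : ℝ) := by push_cast; exact e9
    exact_mod_cast e10

lemma piece' {M : ℕ} {S : Set (V n)} (h : Appr p M S) (m D : ℕ) :
    ∃ g ∈ LK (ZMod p) n (2 * m * M + D),
      (∀ y, g y ≠ 0 → y ∈ S) ∧ ∃ z : ℕ,
        z * (∑ i ∈ range (D + 1), n.choose i) * 4 ^ m ≤ 2 ^ n * 2 ^ n ∧
        S.ncard ≤ z + 2 * (univ.filter fun y => g y ≠ 0).card := by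
  classical
  obtain ⟨g, hg, hE⟩ := h m
  set E := univ.filter fun y => g y ≠ if y ∈ S then 1 else 0 with hEdef
  set W : Finset (V n) := univ.filter fun y => y ∈ S with hW
  obtain ⟨h', hh', hvan, z, hz1, hz2⟩ := exists_vanish (K := ZMod p) D E W
  have hmE : ∀ y, y ∉ E → g y = if y ∈ S then 1 else 0 := by
    intro y hy
    by_contra hcon
    exact hy (by rw [hEdef, Finset.mem_filter]; exact ⟨Finset.mem_univ _, hcon⟩)
  have hkey : ∀ y, (g * h') y ≠ 0 ↔ y ∈ W ∧ h' y ≠ 0 := by
    intro y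
    rw [Pi.mul_apply, mul_ne_zero_iff, hW, Finset.mem_filter]
    constructor
    · rintro ⟨h1, h2⟩
      refine ⟨⟨Finset.mem_univ _, ?_⟩, h2⟩
      have h3 : y ∉ E := fun hy => h2 (hvan y hy)
      rw [hmE y h3] at h1
      by_contra hc
      rw [if_neg hc] at h1
      exact h1 rfl
    · rintro ⟨h1, h2⟩
      refine ⟨?_, h2⟩
      have h3 : y ∉ E := fun hy => h2 (hvan y hy)
      rw [hmE y h3, if_pos h1.2]
      exact one_ne_zero
  refine ⟨g * h', LK_mul hg hh', ?_, z, ?_, ?_⟩
  · intro y hy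
    have := ((hkey y).1 hy).1
    rw [hW, Finset.mem_filter] at this
    exact this.2
  · calc z * (∑ i ∈ range (D + 1), n.choose i) * 4 ^ m ≤ 2 ^ n * E.card * 4 ^ m :=
        Nat.mul_le_mul_right _ hz1
      _ = 2 ^ n * (E.card * 4 ^ m) := by ring
      _ ≤ 2 ^ n * 2 ^ n := by
          refine Nat.mul_le_mul_left _ (le_trans (le_of_eq ?_) hE)
          rw [hEdef]
  · have e1 : S.ncard = W.card := by
      rw [← Set.ncard_coe_finset]
      congr 1
      ext y
      rw [Finset.mem_coe, hW, Finset.mem_filter]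
      simp
    have e2 : (univ.filter fun y => (g * h') y ≠ 0) = W.filter fun y => h' y ≠ 0 := by
      ext y
      rw [Finset.mem_filter, Finset.mem_filter, hkey y]
      simp
    rw [e1, e2]
    exact hz2

/-- The inequality behind the bound. -/
theorem ineq' {M : ℕ} (A : Finset (V n × V n)) (hA : CornerFree A) (L : V n → Set (V n))
    (hL : IsLines A L) (T : ℕ)
    (h : ∀ x, ∃ F : Fin T → Set (V n), (∀ i, Appr p M (F i)) ∧ L x = ⋃ i, F i)
    (m D : ℕ) :
    (A.card : ℝ) ≤ T * (2 * 2 ^ n * (∑ i ∈ range (2 * m * M + D + 1), (n.choose i : ℝ)) +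
      2 ^ n * (4 ^ n / (4 ^ m * ∑ i ∈ range (D + 1), (n.choose i : ℝ)))) := by
  classical
  obtain ⟨A', hA', hc, hL'⟩ := lines_reduce A hA L hL
  choose F hF hLF using h
  have hpc := fun x i => piece' (hF x i) m D
  choose g hg1 hg2 z hz1 hz2 using hpc
  set SD : ℕ := ∑ i ∈ range (D + 1), n.choose i with hSD
  have hSDpos : 0 < SD := by
    rw [hSD]
    refine Finset.sum_pos' (fun _ _ => Nat.zero_le _) ⟨0, by simp, by simp⟩
  -- the columns
  have hrank : ∀ i : Fin T, ∑ x, (univ.filter fun y => g x i y ≠ 0).card ≤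
      2 ^ n * ∑ j ∈ range (2 * m * M + D + 1), n.choose j := by
    intro i
    have h1 := core_rank A' hA' (LK (ZMod p) n (2 * m * M + D)) (fun x => g x i)
      (fun x => hg1 x i) (fun x y hxy => by
        rw [← hL', hLF]
        exact Set.mem_iUnion.2 ⟨i, hg2 x i y hxy⟩)
    have h2 : Fintype.card (V n) = 2 ^ n := by simp
    rw [h2] at h1
    exact h1.trans (Nat.mul_le_mul_left _ (finrank_LK n _))
  have hzr : ∀ x i, (z x i : ℝ) ≤ 4 ^ n / (4 ^ m * SD) := by
    intro x i
    have hpos : (0 : ℝ) < 4 ^ m * SD := by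
      have : (0 : ℝ) < SD := by exact_mod_cast hSDpos
      positivity
    rw [le_div_iff₀ hpos]
    have h1 : ((z x i * SD * 4 ^ m : ℕ) : ℝ) ≤ ((2 ^ n * 2 ^ n : ℕ) : ℝ) := by
      exact_mod_cast hz1 x i
    push_cast at h1
    have h2 : (4 : ℝ) ^ n = 2 ^ n * 2 ^ n := by
      rw [← mul_pow]; norm_num
    rw [h2]
    linarith
  have hrow : ∀ x, ((univ.filter fun y => (x, y) ∈ A').card : ℝ) ≤
      ∑ i : Fin T, (4 ^ n / (4 ^ m * SD) + 2 * ((univ.filter fun y => g x i y ≠ 0).card : ℝ)) := by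
    intro x
    have e1 : (univ.filter fun y => (x, y) ∈ A').card = (⋃ i, F x i).ncard := by
      rw [← Set.ncard_coe_finset, ← hLF]
      congr 1
      ext y
      simp [hL']
    have e2 : (⋃ i, F x i).ncard ≤ ∑ i : Fin T, (F x i).ncard := by
      have := Finset.set_ncard_biUnion_le (univ : Finset (Fin T)) (fun i => F x i)
      simpa using this
    rw [e1]
    calc (((⋃ i, F x i).ncard : ℕ) : ℝ) ≤ ((∑ i : Fin T, (F x i).ncard : ℕ) : ℝ) :=
          Nat.cast_le.2 e2
      _ = ∑ i : Fin T, ((F x i).ncard : ℝ) := by push_cast; rfl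
      _ ≤ _ := by
          refine Finset.sum_le_sum fun i _ => ?_
          have h1 : ((F x i).ncard : ℝ) ≤
              z x i + 2 * ((univ.filter fun y => g x i y ≠ 0).card : ℝ) := by
            exact_mod_cast hz2 x i
          have := hzr x i
          linarith
  have hcardA : (A'.card : ℝ) = ∑ x, ((univ.filter fun y => (x, y) ∈ A').card : ℝ) := by
    have h1 : A'.card = ∑ x : V n, (univ.filter fun y => (x, y) ∈ A').card := by
      rw [Finset.card_eq_sum_card_fiberwise (f := Prod.fst) (t := univ)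
        (fun _ _ => Finset.mem_coe.2 (Finset.mem_univ _))]
      refine Finset.sum_congr rfl fun x _ => ?_
      refine Finset.card_bij' (fun q _ => q.2) (fun y _ => (x, y)) ?_ ?_ ?_ ?_
      · rintro ⟨a, b⟩ hq
        rw [Finset.mem_filter] at hq ⊢
        obtain ⟨h1, h2⟩ := hq
        simp only at h2
        subst h2
        exact ⟨Finset.mem_univ _, h1⟩
      · intro y hy
        rw [Finset.mem_filter] at hy ⊢
        exact ⟨hy.2, rfl⟩
      · rintro ⟨a, b⟩ hq
        rw [Finset.mem_filter] at hq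
        have h2 := hq.2
        simp only at h2
        rw [h2]
      · intro y _; rfl
    rw [h1]; push_cast; rfl
  rw [← hc, hcardA]
  calc _ ≤ ∑ x : V n, ∑ i : Fin T,
        (4 ^ n / (4 ^ m * SD) + 2 * ((univ.filter fun y => g x i y ≠ 0).card : ℝ)) :=
        Finset.sum_le_sum fun x _ => hrow x
    _ = ∑ i : Fin T, ∑ x : V n,
        (4 ^ n / (4 ^ m * SD) + 2 * ((univ.filter fun y => g x i y ≠ 0).card : ℝ)) :=
        Finset.sum_comm
    _ ≤ ∑ _i : Fin T, (2 ^ n * (4 ^ n / (4 ^ m * SD)) +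
        2 * (2 ^ n * ∑ j ∈ range (2 * m * M + D + 1), (n.choose j : ℝ))) := by
        refine Finset.sum_le_sum fun i _ => ?_
        rw [Finset.sum_add_distrib, Finset.sum_const, Finset.card_univ, ← Finset.mul_sum,
          nsmul_eq_mul]
        have h1 : ((∑ x, (univ.filter fun y => g x i y ≠ 0).card : ℕ) : ℝ) ≤
            ((2 ^ n * ∑ j ∈ range (2 * m * M + D + 1), n.choose j : ℕ) : ℝ) :=
          Nat.cast_le.2 (hrank i)
        push_cast at h1
        have h2 : ((Fintype.card (V n) : ℕ) : ℝ) = 2 ^ n := by simp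
        rw [h2]
        linarith
    _ = _ := by
        rw [Finset.sum_const, Finset.card_univ, Fintype.card_fin, nsmul_eq_mul, hSD]
        push_cast
        ring

/-- The bound for corner-free sets with approximable lines. -/
theorem bound' {M : ℕ} (hM1 : 1 ≤ M)
    (A : Finset (V n × V n)) (hA : CornerFree A) (L : V n → Set (V n)) (hL : IsLines A L) (T : ℕ)
    (h : ∀ x, ∃ F : Fin T → Set (V n), (∀ i, Appr p M (F i)) ∧ L x = ⋃ i, F i) :
    (A.card : ℝ) ≤ 40000 * T * (M : ℝ) ^ 2 * 4 ^ n * Real.exp (-(n : ℝ) / (12800 * (M : ℝ) ^ 2)) := by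
  refine numerics n M hM1 T A.card (Nat.cast_nonneg T) ?_ fun m D => ineq' A hA L hL T h m D
  -- the trivial bound
  rcases Nat.eq_zero_or_pos T with h0 | h0
  · subst h0
    have : A = ∅ := by
      have hempty : ∀ x, L x = ∅ := by
        intro x
        obtain ⟨F, _, h2⟩ := h x
        rw [h2]
        simp
      rw [Finset.eq_empty_iff_forall_notMem]
      rintro ⟨a, b⟩ hab
      rcases hL with hL | hL | hL
      · have : b ∈ L a := by rw [hL]; exact hab
        rw [hempty] at this; exact this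
      · have : a ∈ L b := by rw [hL]; exact hab
        rw [hempty] at this; exact this
      · have h3 : b ∈ L (a + b) := by
          rw [hL]
          have : a + b + b = a := by
            rw [add_assoc]
            have : b + b = 0 := by funext i; exact CharTwo.add_self_eq_zero _
            rw [this, add_zero]
          show (a + b + b, b) ∈ A
          rw [this]; exact hab
        rw [hempty] at h3; exact h3
    rw [this]; simp
  · have h1 : (A.card : ℝ) ≤ 4 ^ n := by
      have h2 : A.card ≤ Fintype.card (V n × V n) := Finset.card_le_univ A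
      have h3 : Fintype.card (V n × V n) = 4 ^ n := by
        rw [Fintype.card_prod]
        have : Fintype.card (V n) = 2 ^ n := by simp
        rw [this, ← mul_pow]; norm_num
      rw [h3] at h2
      exact_mod_cast h2
    have h2 : (1 : ℝ) ≤ T := by exact_mod_cast h0
    have h3 : (0 : ℝ) < 4 ^ n := by positivity
    nlinarith

end

/-- The bound for corner-free sets whose lines are unions of `T` sets decided by weighted votes. -/
theorem vote_bound {p k s d T R n : ℕ} (hp : p.Prime) (hk : 1 ≤ k) {M B : ℝ} (hB : 1 ≤ B)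
    (hR1 : 1 ≤ R) (hR : M * B ≤ R) (A : Finset (V n × V n)) (hA : CornerFree A)
    (L : V n → Set (V n)) (hL : IsLines A L)
    (h : ∀ x, ∃ F : Fin T → Set (V n), (∀ i, Voted p k s d M B (F i)) ∧ L x = ⋃ i, F i) :
    (A.card : ℝ) ≤ 40000 * T * (voteDegree p k s d R : ℝ) ^ 2 * 4 ^ n *
      Real.exp (-(n : ℝ) / (12800 * (voteDegree p k s d R : ℝ) ^ 2)) := by
  have : Fact p.Prime := ⟨hp⟩
  have hM1 : 1 ≤ voteDegree p k s d R := by
    unfold voteDegree
    have h2 := hp.two_le
    have h3 : 0 < (p - 1) * (Nat.clog 2 s + Nat.clog 2 R + 4) := Nat.mul_pos (by omega) (by omega)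
    have h4 : 0 < 75 * R := by omega
    exact Nat.mul_pos h4 (Nat.mul_pos hk (pow_pos h3 d))
  refine bound' (p := p) hM1 A hA L hL T fun x => ?_
  obtain ⟨F, hF, hL⟩ := h x
  exact ⟨F, fun i => voted_appr (hF i) hB R hR, hL⟩

lemma voted_restrict {p k s d n : ℕ} {M B : ℝ} (hp : p.Prime) (x : V n) {S : Set (V (n + n))}
    (h : Voted p k s d M B S) : Voted p k s d M B {y : V n | Fin.append x y ∈ S} := by
  obtain ⟨N, F, c, hF, hc, h1, h2⟩ := h
  exact ⟨N, fun i => {y | Fin.append x y ∈ F i}, c, fun i => computed_restrict hp x (hF i), hc,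
    fun y hy => h1 _ hy, fun y hy => h2 _ hy⟩

/-- The bound for corner-free sets which are unions of `T` sets decided by weighted votes. -/
theorem vote_bound' {p k s d T R n : ℕ} (hp : p.Prime) (hk : 1 ≤ k) {M B : ℝ} (hB : 1 ≤ B)
    (hR1 : 1 ≤ R) (hR : M * B ≤ R) (A : Finset (V n × V n)) (hA : CornerFree A)
    (h : ∃ F : Fin T → Set (V (n + n)), (∀ i, Voted p k s d M B (F i)) ∧
      ∀ x y, (x, y) ∈ A ↔ ∃ i, Fin.append x y ∈ F i) :
    (A.card : ℝ) ≤ 40000 * T * (voteDegree p k s d R : ℝ) ^ 2 * 4 ^ n *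
      Real.exp (-(n : ℝ) / (12800 * (voteDegree p k s d R : ℝ) ^ 2)) := by
  obtain ⟨F, hF, hAF⟩ := h
  refine vote_bound hp hk hB hR1 hR A hA (fun x => {y | (x, y) ∈ A}) (Or.inl fun _ => rfl)
    fun x => ⟨fun i => {y | Fin.append x y ∈ F i}, fun i => voted_restrict hp x (hF i), ?_⟩
  ext y
  rw [Set.mem_ofPred_eq, hAF, Set.mem_iUnion]
  rfl

/-- A function of degree at most `k` is computed by a circuit with one node. -/
lemma computed_of_degree {p k n : ℕ} (f : V n → Bool) (hf : HasDegree p k f) :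
    Computed p k 0 0 {y : V n | f y = true} :=
  ⟨{ N := 1, val := fun _ => f, depth := fun _ => 0, andOr := ∅,
     rule := fun _ => Or.inl ⟨Finset.notMem_empty _, hf⟩ }, le_rfl, fun _ => le_rfl, 0, fun _ => Iff.rfl⟩

/-- The indicator function of `S` is a linear combination, with coefficients of sum at most `M` in
absolute value, of functions with the values `1` and `-1` which are polynomials of degree at most
`k` over `Z/p`. -/
def BoundedNorm (p k : ℕ) (M : ℝ) {n : ℕ} (S : Set (V n)) : Prop :=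
  ∃ (N : ℕ) (f : Fin N → V n → Bool) (c : Fin N → ℝ), (∀ i, HasDegree p k (f i)) ∧
    ∑ i, |c i| ≤ M ∧ ∀ y, (y ∈ S → ∑ i, c i * (if f i y = true then 1 else -1) = 1) ∧
      (y ∉ S → ∑ i, c i * (if f i y = true then 1 else -1) = 0)

lemma hasDegree_true (p k n : ℕ) : HasDegree p k (fun _ : V n => true) :=
  ⟨1, by simp, fun y => by simp⟩

lemma voted_of_norm {p k n : ℕ} {M : ℝ} {S : Set (V n)} (h : BoundedNorm p k M S) :
    Voted p k 0 0 (2 * M + 1) 1 S := by
  classical
  obtain ⟨N, f, c, hf, hc, hS⟩ := h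
  refine ⟨N + 1, Fin.cons Set.univ fun i => {y | f i y = true}, Fin.cons (-1) fun i => 2 * c i,
    fun i => ?_, ?_, ?_⟩
  · refine Fin.cases ?_ (fun i => ?_) i
    · have := computed_of_degree (p := p) (k := k) (fun _ : V n => true) (hasDegree_true p k n)
      simpa using this
    · rw [Fin.cons_succ]
      exact computed_of_degree (f i) (hf i)
  · rw [Fin.sum_univ_succ]
    simp only [Fin.cons_zero, Fin.cons_succ, abs_mul, abs_neg, abs_one, abs_two]
    rw [← Finset.mul_sum]
    linarith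
  · have hv : ∀ y, vote (Fin.cons Set.univ fun i => {y | f i y = true})
        (Fin.cons (-1) fun i => 2 * c i) y =
        2 * (∑ i, c i * (if f i y = true then 1 else -1)) - 1 := by
      intro y
      unfold vote
      rw [Fin.sum_univ_succ]
      simp only [Fin.cons_zero, Fin.cons_succ, Set.mem_univ, if_true, Set.mem_ofPred_eq]
      rw [Finset.mul_sum]
      have : ∀ i, 2 * c i * (if f i y = true then (1 : ℝ) else -1) =
          2 * (c i * (if f i y = true then 1 else -1)) := fun i => by ring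
      rw [Finset.sum_congr rfl fun i _ => this i]
      ring
    constructor
    · intro y hy
      rw [hv, (hS y).1 hy]
      norm_num
    · intro y hy
      rw [hv, (hS y).2 hy]
      norm_num

/-- The bound for corner-free sets whose lines have bounded norm. -/
theorem norm_bound {p k M n : ℕ} (hp : p.Prime) (hk : 1 ≤ k) (hM : 1 ≤ M)
    (A : Finset (V n × V n)) (hA : CornerFree A)
    (L : V n → Set (V n)) (hL : IsLines A L) (h : ∀ x, BoundedNorm p k M (L x)) :
    (A.card : ℝ) ≤ 40000 * (225 * (M * k) : ℝ) ^ 2 * 4 ^ n *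
      Real.exp (-(n : ℝ) / (12800 * (225 * (M * k)) ^ 2)) := by
  have h1 := vote_bound (p := p) (k := k) (s := 0) (d := 0) (T := 1) (R := 3 * M) (M := 2 * M + 1)
    (B := 1) hp hk le_rfl (by omega) (by
      push_cast
      have : (1 : ℝ) ≤ M := by exact_mod_cast hM
      linarith) A hA L hL (fun x => ⟨fun _ => L x, fun _ => voted_of_norm (h x), (Set.iUnion_const _).symm⟩)
  have h2 : (voteDegree p k 0 0 (3 * M) : ℝ) = 225 * (M * k) := by
    unfold voteDegree
    push_cast
    ring
  rw [h2] at h1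
  simpa using h1

end Pool.Agent.E8helper69.CV
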